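import Pool.Agent.W558.WA.Stms

/-!
# Reduction of an Artin-Schreier function at a point
-/

set_option autoImplicit false

universe u

open Polynomial

namespace Pool.Agent.W32.WA

open Pool.Agent.W558

section aux

variable {k E : Type u} [Field k] [Field E] [Algebra k E] {A O : Subalgebra k E} {x y : E}

/-- every element of `O` is a `p`-th power modulo the maximal ideal -/
lemma exists_proot (p : ℕ) [Fact p.Prime] [PerfectField k] [CharP k p] (h : IsPt A O)
    {g : E} (hg : g ∈ O) : ∃ e ∈ O, NU O (g - e ^ p) := by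
  classical
  have h' : IsPt O O := h.up h.le le_rfl
  have hm := h'.isMaximal
  let _ : Field (O ⧸ h'.mx) := Ideal.Quotient.field h'.mx
  have halg : Algebra.IsAlgebraic k (O ⧸ h'.mx) := by
    constructor
    intro z
    obtain ⟨a, rfl⟩ := Ideal.Quotient.mk_surjective z
    obtain ⟨P, hP, hP1⟩ := h.alg a a.2
    refine ⟨P, hP, ?_⟩
    have e1 : aeval (Ideal.Quotient.mk h'.mx a) P = Ideal.Quotient.mk h'.mx (aeval a P) := by
      have := Polynomial.aeval_algHom_apply (Ideal.Quotient.mkₐ k h'.mx) a P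
      exact this
    rw [e1, Ideal.Quotient.eq_zero_iff_mem, h'.mem_mx]
    have e2 : ((aeval a P : O) : E) = aeval (a : E) P := by
      have := Polynomial.aeval_algHom_apply O.val a P
      exact this.symm
    rw [e2]
    exact hP1
  have hperf : PerfectField (O ⧸ h'.mx) := Algebra.IsAlgebraic.perfectField k
  have hchar : CharP (O ⧸ h'.mx) p :=
    charP_of_injective_algebraMap (algebraMap k (O ⧸ h'.mx)).injective p
  have : ExpChar (O ⧸ h'.mx) p := ExpChar.prime (Fact.out)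
  have : PerfectRing (O ⧸ h'.mx) p := PerfectField.toPerfectRing p
  obtain ⟨z, hz⟩ := surjective_frobenius (O ⧸ h'.mx) p (Ideal.Quotient.mk h'.mx ⟨g, hg⟩)
  obtain ⟨e, rfl⟩ := Ideal.Quotient.mk_surjective z
  refine ⟨e, e.2, ?_⟩
  rw [frobenius_def, ← map_pow, eq_comm, Ideal.Quotient.eq, h'.mem_mx] at hz
  exact hz

lemma md_zero (l : ℕ) : Md O x y l 0 :=
  ⟨fun _ => 0, fun _ => O.zero_mem, by simp⟩

lemma md_add {l : ℕ} {z w : E} (hz : Md O x y l z) (hw : Md O x y l w) : Md O x y l (z + w) := by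
  obtain ⟨c, hc, rfl⟩ := hz
  obtain ⟨d, hd, rfl⟩ := hw
  refine ⟨fun j => c j + d j, fun j => O.add_mem (hc j) (hd j), ?_⟩
  rw [← Finset.sum_add_distrib]
  exact Finset.sum_congr rfl fun j _ => by ring

lemma md_mul {l : ℕ} {z c : E} (hc : c ∈ O) (hz : Md O x y l z) : Md O x y l (c * z) := by
  obtain ⟨d, hd, rfl⟩ := hz
  refine ⟨fun j => c * d j, fun j => O.mul_mem hc (hd j), ?_⟩
  rw [Finset.mul_sum]
  exact Finset.sum_congr rfl fun j _ => by ring

lemma md_sum {l : ℕ} {ι : Type*} (s : Finset ι) (z : ι → E) (hz : ∀ i ∈ s, Md O x y l (z i)) :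
    Md O x y l (∑ i ∈ s, z i) := by
  classical
  induction s using Finset.induction_on with
  | empty => rw [Finset.sum_empty]; exact md_zero l
  | insert i s his ih =>
    rw [Finset.sum_insert his]
    exact md_add (hz i (Finset.mem_insert_self i s))
      (ih fun j hj => hz j (Finset.mem_insert_of_mem hj))

lemma md_term {l j : ℕ} (hj : j ≤ l) : Md O x y l (x ^ (l - j) * y ^ j) := by
  classical
  refine ⟨fun i => if i = j then 1 else 0, fun i => ?_, ?_⟩
  · dsimp only
    split_ifs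
    exacts [O.one_mem, O.zero_mem]
  · rw [Finset.sum_eq_single j]
    · dsimp only
      rw [if_pos rfl, one_mul]
    · intro i _ hi
      dsimp only
      rw [if_neg hi, zero_mul, zero_mul]
    · intro h
      exact absurd (Finset.mem_range.2 (by omega)) h

lemma md_mono (hx : x ∈ O) (hy : y ∈ O) {l i j : ℕ} (h : l ≤ i + j) :
    Md O x y l (x ^ i * y ^ j) := by
  by_cases hj : j ≤ l
  · have e : x ^ i * y ^ j = x ^ (i - (l - j)) * (x ^ (l - j) * y ^ j) := by
      rw [← mul_assoc, ← pow_add]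
      congr 2
      omega
    rw [e]
    exact md_mul (O.pow_mem hx _) (md_term hj)
  · have e : x ^ i * y ^ j = (x ^ i * y ^ (j - l)) * (x ^ (l - l) * y ^ l) := by
      rw [Nat.sub_self, pow_zero, one_mul, mul_assoc, ← pow_add]
      congr 2
      omega
    rw [e]
    exact md_mul (O.mul_mem (O.pow_mem hx _) (O.pow_mem hy _)) (md_term le_rfl)

lemma md_nu (hp : Par O x y) {l j : ℕ} (hj : j ≤ l) {z : E} (hz : NU O z) :
    Md O x y (l + 1) (z * x ^ (l - j) * y ^ j) := by
  obtain ⟨α, hα, β, hβ, rfl⟩ := hp.gen z hz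
  have e : (α * x + β * y) * x ^ (l - j) * y ^ j =
      α * (x ^ (l - j + 1) * y ^ j) + β * (x ^ (l - j) * y ^ (j + 1)) := by
    ring
  rw [e]
  exact md_add (md_mul hα (md_mono hp.pu.mem hp.pv.mem (by omega)))
    (md_mul hβ (md_mono hp.pu.mem hp.pv.mem (by omega)))

/-- the reduction of one term -/
lemma term (p : ℕ) [Fact p.Prime] [PerfectField k] [CharP k p] (h : IsPt A O) (hp : Par O x y)
    {N M l j : ℕ} (hl : l < N + M) (hj : j ≤ l) {g : E} (hg : g ∈ O)
    (hd : ¬ NU O g → (p : ℤ) ∣ (l : ℤ) - j - N ∧ (p : ℤ) ∣ (j : ℤ) - M) :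
    ∃ s : E, ∃ e ∈ O, NU O (g - e ^ p) ∧
      s ^ p * (x ^ N * y ^ M) = e ^ p * x ^ (l - j) * y ^ j ∧
      Md O x y (l + 1) (s * (x ^ N * y ^ M)) ∧ s * (x ^ (N / p) * y ^ (M / p)) ∈ O := by
  have hp2 : 2 ≤ p := (Fact.out : p.Prime).two_le
  by_cases hn : NU O g
  · refine ⟨0, 0, O.zero_mem, ?_, ?_, ?_, ?_⟩
    · rw [zero_pow (by omega), sub_zero]; exact hn
    · rw [zero_pow (by omega)]; ring
    · rw [zero_mul]; exact md_zero _
    · rw [zero_mul]; exact O.zero_mem
  · obtain ⟨⟨α, hα⟩, ⟨β, hβ⟩⟩ := hd hn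
    obtain ⟨e, he, hge⟩ := exists_proot p h hg
    have hx0 := hp.u0
    have hy0 := hp.v0
    have hpz : (2 : ℤ) ≤ p := by exact_mod_cast hp2
    have hlz : (l : ℤ) < N + M := by exact_mod_cast hl
    have hjz : (j : ℤ) ≤ l := by exact_mod_cast hj
    have hN0 : (0 : ℤ) ≤ N := by positivity
    have hM0 : (0 : ℤ) ≤ M := by positivity
    have hj0 : (0 : ℤ) ≤ j := by positivity
    -- the exponents
    have hA : 0 ≤ (N : ℤ) + α := by
      by_contra hc
      have h1 : (N : ℤ) + α ≤ -1 := by omega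
      nlinarith [mul_le_mul_of_nonneg_left h1 (by omega : (0 : ℤ) ≤ p),
        mul_nonneg (by omega : (0 : ℤ) ≤ (p : ℤ) - 1) hN0]
    have hB : 0 ≤ (M : ℤ) + β := by
      by_contra hc
      have h1 : (M : ℤ) + β ≤ -1 := by omega
      nlinarith [mul_le_mul_of_nonneg_left h1 (by omega : (0 : ℤ) ≤ p),
        mul_nonneg (by omega : (0 : ℤ) ≤ (p : ℤ) - 1) hM0]
    have hAB : (l : ℤ) + 1 ≤ (N + α) + (M + β) := by
      by_contra hc
      have h1 : ((N : ℤ) + α) + (M + β) ≤ l := by omega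
      nlinarith [mul_le_mul_of_nonneg_left h1 (by omega : (0 : ℤ) ≤ p),
        mul_pos (by omega : (0 : ℤ) < (p : ℤ) - 1) (by omega : (0 : ℤ) < (N : ℤ) + M - l)]
    have hA' : 0 ≤ ((N / p : ℕ) : ℤ) + α := by
      have h1 : -α ≤ (N : ℤ) / p := by
        rw [Int.le_ediv_iff_mul_le (by omega)]
        nlinarith
      push_cast
      omega
    have hB' : 0 ≤ ((M / p : ℕ) : ℤ) + β := by
      have h1 : -β ≤ (M : ℤ) / p := by
        rw [Int.le_ediv_iff_mul_le (by omega)]
        nlinarith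
      push_cast
      omega
    obtain ⟨a, ha⟩ := Int.eq_ofNat_of_zero_le hA
    obtain ⟨b, hb⟩ := Int.eq_ofNat_of_zero_le hB
    obtain ⟨a', ha'⟩ := Int.eq_ofNat_of_zero_le hA'
    obtain ⟨b', hb'⟩ := Int.eq_ofNat_of_zero_le hB'
    have e1 : x ^ α * x ^ N = x ^ a := by
      rw [← zpow_natCast x N, ← zpow_add₀ hx0, ← zpow_natCast x a, ← ha, add_comm]
    have e2 : y ^ β * y ^ M = y ^ b := by
      rw [← zpow_natCast y M, ← zpow_add₀ hy0, ← zpow_natCast y b, ← hb, add_comm]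
    have e3 : x ^ α * x ^ (N / p) = x ^ a' := by
      rw [← zpow_natCast x (N / p), ← zpow_add₀ hx0, ← zpow_natCast x a', ← ha', add_comm]
    have e4 : y ^ β * y ^ (M / p) = y ^ b' := by
      rw [← zpow_natCast y (M / p), ← zpow_add₀ hy0, ← zpow_natCast y b', ← hb', add_comm]
    have e5 : (x ^ α) ^ p * x ^ N = x ^ (l - j) := by
      rw [← zpow_natCast (x ^ α) p, ← zpow_mul, ← zpow_natCast x N, ← zpow_add₀ hx0,
        ← zpow_natCast x (l - j), Nat.cast_sub hj]
      congr 1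
      linarith
    have e6 : (y ^ β) ^ p * y ^ M = y ^ j := by
      rw [← zpow_natCast (y ^ β) p, ← zpow_mul, ← zpow_natCast y M, ← zpow_add₀ hy0,
        ← zpow_natCast y j]
      congr 1
      linarith
    refine ⟨e * x ^ α * y ^ β, e, he, hge, ?_, ?_, ?_⟩
    · rw [← e5, ← e6]; ring
    · have e7 : e * x ^ α * y ^ β * (x ^ N * y ^ M) = e * (x ^ a * y ^ b) := by
        rw [← e1, ← e2]; ring
      rw [e7]
      refine md_mul he (md_mono hp.pu.mem hp.pv.mem ?_)
      have : (l : ℤ) + 1 ≤ (a : ℤ) + b := by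
        rw [show (a : ℤ) = N + α from ha.symm, show (b : ℤ) = M + β from hb.symm]
        exact hAB
      exact_mod_cast this
    · have e7 : e * x ^ α * y ^ β * (x ^ (N / p) * y ^ (M / p)) = e * (x ^ a' * y ^ b') := by
        rw [← e3, ← e4]; ring
      rw [e7]
      exact O.mul_mem he (O.mul_mem (O.pow_mem hp.pu.mem _) (O.pow_mem hp.pv.mem _))

end aux

theorem main : WA_t.{u} := by
  intro p _ k E _ _ _ _ _ htr O x y hO hp f N M hf
  obtain ⟨A, hA, hpt⟩ := hO
  have hcE : CharP E p := charP_of_injective_algebraMap (algebraMap k E).injective p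
  have step : ∀ d l : ℕ, l + d = N + M → ∀ a : E, a * (x ^ (N / p) * y ^ (M / p)) ∈ O →
      Md O x y l ((f - (a ^ p - a)) * (x ^ N * y ^ M)) →
      ∃ (ρ : ℕ) (g : ℕ → E) (a : E), ρ ≤ N + M ∧ (∀ j, g j ∈ O) ∧
        a * (x ^ (N / p) * y ^ (M / p)) ∈ O ∧
        (f - (a ^ p - a)) * (x ^ N * y ^ M) =
          ∑ j ∈ Finset.range (ρ + 1), g j * x ^ (ρ - j) * y ^ j ∧
        (ρ = N + M ∨ ∃ j, j ≤ ρ ∧ ¬ NU O (g j) ∧
          ¬ ((p : ℤ) ∣ (ρ : ℤ) - j - N ∧ (p : ℤ) ∣ (j : ℤ) - M)) := by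
    intro d
    induction d with
    | zero =>
      intro l hl a ha hmd
      obtain ⟨g, hg, hge⟩ := hmd
      exact ⟨l, g, a, by omega, hg, ha, hge, Or.inl (by omega)⟩
    | succ d ih =>
      intro l hl a ha hmd
      obtain ⟨g, hg, hge⟩ := hmd
      by_cases hc : ∃ j, j ≤ l ∧ ¬ NU O (g j) ∧
          ¬ ((p : ℤ) ∣ (l : ℤ) - j - N ∧ (p : ℤ) ∣ (j : ℤ) - M)
      · exact ⟨l, g, a, by omega, hg, ha, hge, Or.inr hc⟩
      · push Not at hc
        have key : ∀ j : Fin (l + 1), ∃ s : E, ∃ e ∈ O, NU O (g j - e ^ p) ∧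
            s ^ p * (x ^ N * y ^ M) = e ^ p * x ^ (l - j) * y ^ (j : ℕ) ∧
            Md O x y (l + 1) (s * (x ^ N * y ^ M)) ∧ s * (x ^ (N / p) * y ^ (M / p)) ∈ O :=
          fun j => term p hpt hp (by omega) (by omega) (hg j) (hc j (by omega))
        choose s e he h1 h2 h3 h4 using key
        refine ih (l + 1) (by omega) (a + ∑ j, s j) ?_ ?_
        · rw [add_mul, Finset.sum_mul]
          exact O.add_mem ha (O.sum_mem fun j _ => h4 j)
        · have e1 : (f - ((a + ∑ j, s j) ^ p - (a + ∑ j, s j))) * (x ^ N * y ^ M) =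
              ∑ j : Fin (l + 1), ((g j - e j ^ p) * x ^ (l - j) * y ^ (j : ℕ) +
                s j * (x ^ N * y ^ M)) := by
            rw [add_pow_char, sum_pow_char]
            have e2 : (f - (a ^ p + ∑ j, s j ^ p - (a + ∑ j, s j))) * (x ^ N * y ^ M) =
                (f - (a ^ p - a)) * (x ^ N * y ^ M) - ∑ j, s j ^ p * (x ^ N * y ^ M) +
                  ∑ j, s j * (x ^ N * y ^ M) := by
              rw [← Finset.sum_mul, ← Finset.sum_mul]; ring
            rw [e2, hge, Finset.sum_range, ← Finset.sum_sub_distrib, ← Finset.sum_add_distrib]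
            refine Finset.sum_congr rfl fun j _ => ?_
            rw [h2]
            ring
          rw [e1]
          exact md_sum _ _ fun j _ => md_add (md_nu hp (by omega) (h1 j)) (h3 j)
  refine step (N + M) 0 (by omega) 0 (by rw [zero_mul]; exact O.zero_mem) ?_
  refine ⟨fun _ => f * (x ^ N * y ^ M), fun _ => hf, ?_⟩
  have hp0 : p ≠ 0 := (Fact.out : p.Prime).ne_zero
  simp [zero_pow hp0]

end Pool.Agent.W32.WA
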